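import Pool.Agent.N436.DF.Stm

/-!
# Project DF, part 13: existence of the top set
-/

set_option autoImplicit false

namespace Pool.Agent.N767.DF

open Finset Pool.Agent.N436.DF

theorem soft (hlow : S_low) (hdelr : S_delr) (hs : S_trSoft) : S_soft := by
  intro V _ P H S u w hR hm hu hw huw
  obtain ⟨o1, r1, -⟩ := hlow V P H true u hm.ok
  obtain ⟨o2, r2, -⟩ := hlow V P (low H true u) false u o1
  obtain ⟨o3, r3, -⟩ := hlow V P (low (low H true u) false u) true w o2
  obtain ⟨o4, r4, -⟩ := hlow V P (low (low (low H true u) false u) true w) false w o3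
  obtain ⟨o5, r5, -, e5, -⟩ := hdelr V P (low (low (low (low H true u) false u) true w) false w) u w
    o4 huw
  have hlt := e5 S hu hw
  have heq : eE (low (low (low (low H true u) false u) true w) false w) S = eE H S := rfl
  rw [heq] at hlt
  have hnh : ¬ Hyp P (delr (low (low (low (low H true u) false u) true w) false w) u w) S := by
    intro hh
    exact hm.ncol (hs V P H S u w hm.ok hu hw huw (hm.ih1 _ S o5 hh hlt))
  unfold Hyp at hnh
  push Not at hnh
  obtain ⟨X, hXS, hXne, hX⟩ := hnh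
  have s1 := r1 X
  have s2 := r2 X
  have s3 := r3 X
  have s4 := r4 X
  have s5 := r5 X
  have k1 : kap P true = P.a := rfl
  have k2 : kap P false = P.b := rfl
  rw [k1] at s1 s3
  rw [k2] at s2 s4
  have hyp := hm.hyp X hXS hXne
  have hsoft := hR.hsoft
  refine ⟨X, hXS, ?_, ?_⟩
  · by_cases h1 : u ∈ X
    · by_cases h2 : w ∈ X
      · exfalso
        simp only [h1, h2, and_self, if_true] at s1 s2 s3 s4 s5
        linarith
      · exact ⟨u, h1, w, Finset.mem_sdiff.2 ⟨hw, h2⟩, huw⟩
    · by_cases h2 : w ∈ X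
      · refine ⟨w, h2, u, Finset.mem_sdiff.2 ⟨hu, h1⟩, ?_⟩
        rw [hm.ok.rsymm]
        exact huw
      · exfalso
        simp only [h1, h2, and_self, if_false] at s1 s2 s3 s4 s5
        linarith
  · by_cases h1 : u ∈ X
    · by_cases h2 : w ∈ X
      · exfalso
        simp only [h1, h2, and_self, if_true] at s1 s2 s3 s4 s5
        linarith
      · simp only [h1, h2, and_false, if_true, if_false] at s1 s2 s3 s4 s5
        linarith
    · by_cases h2 : w ∈ X
      · simp only [h1, h2, false_and, if_true, if_false] at s1 s2 s3 s4 s5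
        linarith
      · exfalso
        simp only [h1, h2, and_self, if_false] at s1 s2 s3 s4 s5
        linarith

theorem top (he0 : S_E0) (hcaps : S_caps) (hsoft : S_soft) : S_top := by
  classical
  intro V _ P H S hR hm
  have hex : ∃ u ∈ S, ∃ w ∈ S, H.r u w = 1 := by
    by_contra hcon
    push Not at hcon
    refine hm.ncol (he0 V P H S hm.ok hm.hyp (fun v hv i => hcaps V P H S hm v hv i) ?_)
    intro u hu v hv
    exact (hm.ok.r01 u v).resolve_right (hcon u hu v hv)
  obtain ⟨u, hu, w, hw, huw⟩ := hex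
  obtain ⟨X₁, hX₁S, hX₁B, hX₁r⟩ := hsoft V P H S u w hR hm hu hw huw
  have hF : (S.powerset.filter (fun Y => RB H S Y)).Nonempty :=
    ⟨X₁, Finset.mem_filter.2 ⟨Finset.mem_powerset.2 hX₁S, hX₁B⟩⟩
  obtain ⟨X₀, hX₀, hmin⟩ := Finset.exists_min_image _ (fun Y => rho P H Y) hF
  have hF' : ((S.powerset.filter (fun Y => RB H S Y)).filter
      (fun Y => rho P H Y = rho P H X₀)).Nonempty := ⟨X₀, Finset.mem_filter.2 ⟨hX₀, rfl⟩⟩
  obtain ⟨X, hX, hmax⟩ := Finset.exists_max_image _ (fun Y => Y.card) hF'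
  rw [Finset.mem_filter, Finset.mem_filter, Finset.mem_powerset] at hX
  obtain ⟨⟨hXS, hXB⟩, hXr⟩ := hX
  have hXB' := hXB
  obtain ⟨u', hu', w', hw', huw'⟩ := hXB
  have hmin' : ∀ Y, Y ⊆ S → RB H S Y → rho P H X ≤ rho P H Y := by
    intro Y hY hYB
    rw [hXr]
    exact hmin Y (Finset.mem_filter.2 ⟨Finset.mem_powerset.2 hY, hYB⟩)
  refine ⟨X, u', w', ⟨hR, hm, hXS, hu', hw', huw', ?_, hmin', ?_⟩⟩
  · exact (hmin' X₁ hX₁S hX₁B).trans hX₁r
  · intro Y hXY hY hYB
    rcases (hmin' Y hY hYB).lt_or_eq with h | h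
    · exact h
    · exfalso
      have h1 := hmax Y (Finset.mem_filter.2 ⟨Finset.mem_filter.2 ⟨Finset.mem_powerset.2 hY, hYB⟩,
        by rw [← h, hXr]⟩)
      have h2 := Finset.card_lt_card hXY
      exact absurd h1 (not_le.2 h2)

end Pool.Agent.N767.DF
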